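import Pool.Agent.Helper81.TA.Sepr

/-! (STAR): a function of a point which is a polynomial along `D` spanning lines through the point is a polynomial in
the base point with coefficients of rate zero, modulo small functions. -/

set_option autoImplicit false

namespace Pool.Agent.Helper81.TA

open Finset Filter Topology Pool.Agent.Helper69.RK Pool.Agent.Helper31.EC Pool.Agent.Helper31.EC.Sp
open Pool.Agent.Helper31.EC.QS Pool.Agent.Helper57.TA

noncomputable section

variable {S : Sp}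

/-- Taylor shift of a polynomial with known coefficients -/
theorem pe_shift {k K : ℕ} (hK : k ≤ K) (α : Fin (k + 1) → QS S) (x c : QS S) {A : S.L}
    (hα : ∀ j, dg (α j) 1 ≤ A) (hc : dg c 1 ≤ A) :
    ∃ β : Fin (K + 1) → QS S, (∀ j, dg (β j) 1 ≤ A) ∧ pe α (x + c) = pe β x := by
  refine ⟨fun m => ∑ l : Fin (k + 1), α l * (c ^ ((l : ℕ) - (m : ℕ)) * (((l : ℕ).choose (m : ℕ) : ℕ) : QS S)),
    fun m => ?_, ?_⟩
  · apply (Kn S 1 le_rfl A).sum_mem
    intro l _
    exact (Kn S 1 le_rfl A).mul_mem (hα l) ((Kn S 1 le_rfl A).mul_mem ((Kn S 1 le_rfl A).pow_mem hc _)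
      (natCast_mem (Kn S 1 le_rfl A) _))
  · unfold pe
    have h1 : ∀ l : Fin (k + 1), (x + c) ^ (l : ℕ) =
        ∑ m : Fin (K + 1), x ^ (m : ℕ) * (c ^ ((l : ℕ) - (m : ℕ)) * (((l : ℕ).choose (m : ℕ) : ℕ) : QS S)) := by
      intro l
      rw [add_pow, Fin.sum_univ_eq_sum_range (fun m => x ^ m * (c ^ ((l : ℕ) - m) *
        (((l : ℕ).choose m : ℕ) : QS S))) (K + 1)]
      have h2 : Finset.range ((l : ℕ) + 1) ⊆ Finset.range (K + 1) := by
        apply Finset.range_subset_range.mpr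
        have := l.2
        omega
      rw [← Finset.sum_subset h2]
      · apply Finset.sum_congr rfl
        intro m _
        ring
      · intro m _ hm
        rw [Finset.mem_range, not_lt] at hm
        rw [Nat.choose_eq_zero_of_lt (by omega), Nat.cast_zero, mul_zero, mul_zero]
    simp_rw [h1, Finset.mul_sum, Finset.sum_mul]
    rw [Finset.sum_comm]
    apply Finset.sum_congr rfl
    intro m _
    apply Finset.sum_congr rfl
    intro l _
    ring

/-- substitution of polynomials with known coefficients -/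
theorem bind_mem {σ τ : Type} {A : S.L} {P : MvPolynomial σ (QS S)} (hP : P ∈ PK A)
    (G : σ → MvPolynomial τ (QS S)) (hG : ∀ i, G i ∈ PK A) : MvPolynomial.bind₁ G P ∈ PK A := by
  classical
  rw [P.as_sum, map_sum]
  apply (PK A).sum_mem
  intro m _
  rw [MvPolynomial.bind₁_monomial]
  exact (PK A).mul_mem (C_mem (hP m)) ((PK A).prod_mem fun i _ => (PK A).pow_mem (hG i) _)

theorem eval_bind' {σ τ : Type} (P : MvPolynomial σ (QS S)) (G : σ → MvPolynomial τ (QS S)) (y : τ → QS S) :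
    MvPolynomial.eval y (MvPolynomial.bind₁ G P) = MvPolynomial.eval (fun i => MvPolynomial.eval y (G i)) P := by
  have h1 := MvPolynomial.eval₂Hom_bind₁ (RingHom.id (QS S)) y G P
  exact h1

/-- (STAR), with the parameter `t` a coordinate of the point -/
theorem star {D : ℕ} {γ : Type} [Fintype γ] (g : γ → QS S) (q : Fin D → QS S) (t : QS S)
    (x f : Fin D → Fin D → QS S) (T : Star S D g q t x f) (a₀ : γ) (ta : Fin D) (hqt : q ta = t)
    (hx1 : ∀ i, x i ta = 1) {r : ℝ} (hr0 : 0 ≤ r) (hr : r ≤ 1) (hg : dg (g a₀) 1 ≤ vd q 1)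
    (hw : ∀ i, WPol (vd (x i) 1 ⊔ vd (f i) 1) t (g a₀) r) :
    ∃ (W : Sp) (p : Pj W S) (Θ : MvPolynomial (Fin D) (QS W)), Θ ∈ PK ⊥ ∧
      p.qs (g a₀) - MvPolynomial.eval (fun a => p.qs (q a)) Θ ∈ Id W r := by
  classical
  set F : Fin D × Fin D → QS T.W := fun u => (T.p u.1).qs (x u.1 u.2) with hF
  set X : Matrix (Fin D) (Fin D) (QS T.W) := Matrix.of fun i a => (T.p i).qs (x i a) with hX
  have hu : IsUnit X.det := T.unit
  have hXa : ∀ i a, X i a = (T.p i).qs (x i a) := fun i a => rfl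
  have hXF : ∀ i a, dg (X i a) 1 ≤ vd F 1 := fun i a => dg_le_vd F 1 (i, a)
  have hXi : ∀ i a, dg (X⁻¹ i a) 1 ≤ vd F 1 := inv_mem X le_rfl _ hXF hu
  set y : Fin D → QS T.W := fun a => (T.p ta).qs (q a) with hy
  have hya : ∀ i a, (T.p i).qs (q a) = y a := fun i a => T.comq i ta a
  set s : Fin D → QS T.W := Matrix.vecMul y X⁻¹ with hs
  have hsy : Matrix.vecMul s X = y := by
    rw [hs, Matrix.vecMul_vecMul, Matrix.nonsing_inv_mul _ hu, Matrix.vecMul_one]
  have hy1 : ∀ a, y a = ∑ j, s j * X j a := fun a => (congrFun hsy a).symm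
  have hs1 : ∀ i, s i = ∑ a, y a * X⁻¹ a i := fun i => rfl
  have hXt : ∀ i, X i ta = 1 := by
    intro i
    rw [hXa, hx1, map_one]
  have ht : ∀ i, (T.p i).qs t = ∑ j, s j := by
    intro i
    have h0 : (T.p i).qs t = (T.p i).qs (q ta) := congrArg (T.p i).qs hqt.symm
    rw [h0, hya, hy1]
    apply Finset.sum_congr rfl
    intro j _
    rw [hXt, mul_one]
  -- knowledge
  have hyk : vd y 1 ≤ vd s 1 ⊔ vd F 1 := by
    rw [vd_le]
    intro a
    rw [hy1]
    apply (Kn T.W 1 le_rfl (vd s 1 ⊔ vd F 1)).sum_mem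
    intro j _
    exact (Kn T.W 1 le_rfl (vd s 1 ⊔ vd F 1)).mul_mem ((dg_le_vd s 1 j).trans le_sup_left)
      ((hXF j a).trans le_sup_right)
  have hrl : Rl s (vd F 1) := by
    apply Rl.of_ge
    have h1 : Rl y (vd F 1) := T.real ta
    unfold Rl at h1
    rw [← h1]
    refine (h_mono hyk).trans ?_
    rw [h_sup_right_of_le le_rfl]
  have hgv : dg ((T.p ta).qs (g a₀)) 1 ≤ vd y 1 := by
    rw [(T.p ta).qs_dg, hy, (T.p ta).qs_vd]
    exact (T.p ta).map_mono hg
  have hc : ∀ i, dg (∑ j ∈ Finset.univ.erase i, s j) 1 ≤ sd s (Finset.univ.erase i) ⊔ vd F 1 := by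
    intro i
    apply (Kn T.W 1 le_rfl (sd s (Finset.univ.erase i) ⊔ vd F 1)).sum_mem
    intro j hj
    exact (dg_le_sd s hj).trans le_sup_left
  have hf : ∀ i a, dg ((T.p i).qs (f i a)) 1 ≤ sd s (Finset.univ.erase i) ⊔ vd F 1 := by
    intro i a
    have h1 : (T.p i).qs (f i a) = ∑ j ∈ Finset.univ.erase i, s j * (X j a - X i a) := by
      have h2 := T.pt i a
      rw [hya, ht, ← hXa, hy1] at h2
      have h3 : (T.p i).qs (f i a) = ∑ j, s j * (X j a - X i a) := by
        have h4 : (∑ j, s j * (X j a - X i a)) = (∑ j, s j * X j a) - (∑ j, s j) * X i a := by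
          rw [Finset.sum_mul, ← Finset.sum_sub_distrib]
          apply Finset.sum_congr rfl
          intro j _
          ring
        rw [h4, h2]
        ring
      rw [h3, ← Finset.add_sum_erase Finset.univ _ (Finset.mem_univ i), sub_self, mul_zero, zero_add]
    rw [h1]
    apply (Kn T.W 1 le_rfl (sd s (Finset.univ.erase i) ⊔ vd F 1)).sum_mem
    intro j hj
    exact (Kn T.W 1 le_rfl (sd s (Finset.univ.erase i) ⊔ vd F 1)).mul_mem ((dg_le_sd s hj).trans le_sup_left)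
      ((Kn T.W 1 le_rfl (sd s (Finset.univ.erase i) ⊔ vd F 1)).sub_mem ((hXF j a).trans le_sup_right)
        ((hXF i a).trans le_sup_right))
  -- weak polynomiality in the variables `s`
  choose k α hα hαe using hw
  set K := Finset.univ.sup k with hK
  have hGG : ∀ i, ∃ G : Fin (K + 1) → QS T.W, vd G 1 ≤ sd s (Finset.univ.erase i) ⊔ vd F 1 ∧
      (T.p ta).qs (g a₀) - pe G (s i) ∈ Id T.W r := by
    intro i
    have h1 : ∀ j, dg ((T.p i).qs (α i j)) 1 ≤ sd s (Finset.univ.erase i) ⊔ vd F 1 := by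
      intro j
      rw [(T.p i).qs_dg]
      refine ((T.p i).map_mono (hα i j)).trans ?_
      rw [Pj.map_sup, ← (T.p i).qs_vd, ← (T.p i).qs_vd]
      apply sup_le
      · rw [vd_le]
        intro a
        exact (hXF i a).trans le_sup_right
      · rw [vd_le]
        intro a
        exact hf i a
    obtain ⟨β, hβ1, hβ2⟩ := pe_shift (Finset.le_sup (f := k) (Finset.mem_univ i) : k i ≤ K)
      (fun j => (T.p i).qs (α i j)) (s i) (∑ j ∈ Finset.univ.erase i, s j) h1 (hc i)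
    refine ⟨β, ?_, ?_⟩
    · rw [vd_le]
      exact hβ1
    · rw [← hβ2]
      have h2 := ((T.p i).qs_mem_Id hr).mpr (hαe i)
      rw [map_sub, pe_map, ht, T.com i ta a₀, ← Finset.add_sum_erase Finset.univ _ (Finset.mem_univ i)] at h2
      exact h2
  obtain ⟨W1, p1, P, hP1, -, hP2⟩ := sepr (k := K) hr0 hr D F s ((T.p ta).qs (g a₀)) hrl
    (hgv.trans hyk) hGG
  -- substitution
  set U : W1.L := p1.map (vd F 1) with hU
  set P' : MvPolynomial (Fin D) (QS W1) :=
    MvPolynomial.bind₁ (fun i => ∑ a, MvPolynomial.X a * MvPolynomial.C (p1.qs (X⁻¹ a i))) P with hP'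
  have hP'k : P' ∈ PK U := by
    apply bind_mem hP1
    intro i
    apply (PK U).sum_mem
    intro a _
    apply (PK U).mul_mem (X_mem _ a) (C_mem ?_)
    rw [p1.qs_dg]
    exact p1.map_mono (hXi a i)
  have hP'e : p1.qs ((T.p ta).qs (g a₀)) - MvPolynomial.eval (fun a => p1.qs (y a)) P' ∈ Id W1 r := by
    rw [hP', eval_bind']
    have h1 : (fun i => MvPolynomial.eval (fun a => p1.qs (y a))
        (∑ a, MvPolynomial.X a * MvPolynomial.C (p1.qs (X⁻¹ a i)))) = fun i => p1.qs (s i) := by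
      funext i
      rw [map_sum, hs1, map_sum]
      apply Finset.sum_congr rfl
      intro a _
      rw [map_mul, map_mul, MvPolynomial.eval_X, MvPolynomial.eval_C]
    rw [h1]
    exact hP2
  -- two copies given the point
  set φ : Fin D ⊕ Unit → QS W1 := Sum.elim (fun a => p1.qs (y a)) (fun _ => p1.qs ((T.p ta).qs (g a₀))) with hφ
  obtain ⟨C⟩ := exists_CQ φ 1
  have hV : I U (vd φ 1) ⊥ = 0 := by
    have h1 : I (p1.map (vd F 1)) (p1.map ((T.p ta).map (vd q 1 ⊔ vd g 1))) (p1.map ⊥) = 0 := by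
      rw [Pj.I_map]
      exact T.ind ta
    rw [Pj.map_bot] at h1
    apply I_zero_mono h1 le_sup_left
    refine le_trans ?_ le_sup_left
    rw [vd_le]
    rintro (a | a)
    · show dg (p1.qs (y a)) 1 ≤ _
      rw [p1.qs_dg, hy, (T.p ta).qs_dg]
      exact p1.map_mono ((T.p ta).map_mono ((dg_le_vd q 1 a).trans le_sup_left))
    · show dg (p1.qs ((T.p ta).qs (g a₀))) 1 ≤ _
      rw [p1.qs_dg, (T.p ta).qs_dg]
      exact p1.map_mono ((T.p ta).map_mono ((dg_le_vd g 1 a₀).trans le_sup_right))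
  have hv : ∀ i, I ((C.p i).map U) C.v ⊥ = 0 := by
    intro i
    rw [← C.p_v i, ← (C.p i).map_bot, Pj.I_map]
    exact hV
  set U1 : C.W.L := (C.p 0).map U with hU1
  set U2 : C.W.L := (C.p 1).map U with hU2
  have i12 : I U1 U2 C.v = 0 := C.I_two (by decide) U U
  have j1 : I U1 (C.v ⊔ U2) ⊥ = 0 := I_contract (hv 0) (by rw [sup_bot_eq]; exact i12)
  have j2 : I U1 U2 ⊥ = 0 ∧ I U1 C.v (U2 ⊔ ⊥) = 0 := I_decomp (by rw [sup_comm] at j1; exact j1)
  have j3 : I C.v (U2 ⊔ U1) ⊥ = 0 := I_contract (by rw [I_comm]; exact hv 1) (by rw [I_comm]; exact j2.2)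
  set Y : Fin D → QS C.W := fun a => (C.p 0).qs (p1.qs (y a)) with hY
  have hYv : vd Y 1 ≤ C.v := by
    rw [vd_le]
    intro a
    show dg ((C.p 0).qs (p1.qs (y a))) 1 ≤ _
    rw [(C.p 0).qs_dg]
    exact (C.p 0).map_mono (dg_le_vd φ 1 (Sum.inl a))
  have hYr0 : Rl Y ⊥ := by
    have h1 : Rl y (vd F 1) := T.real ta
    have h2 := ((h1.pull p1).pull (C.p 0)).anti (bot_le : (⊥ : C.W.L) ≤ _)
    exact h2
  have hYr : Rl Y (U2 ⊔ U1) := by
    have h1 : I (vd Y 1) (U2 ⊔ U1) ⊥ = 0 := I_zero_mono j3 (hYv.trans le_sup_left) le_sup_left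
    rw [I_zero_iff_h, sup_bot_eq] at h1
    unfold Rl at hYr0 ⊢
    rw [h1]
    exact hYr0
  have hco : ∀ a, (C.p 1).qs (p1.qs (y a)) = Y a := fun a => C.com 1 0 (Sum.inl a)
  have hcg : (C.p 1).qs (p1.qs ((T.p ta).qs (g a₀))) = (C.p 0).qs (p1.qs ((T.p ta).qs (g a₀))) :=
    C.com 1 0 (Sum.inr ())
  have e0 : (C.p 0).qs (p1.qs ((T.p ta).qs (g a₀))) - MvPolynomial.eval Y (MvPolynomial.map (C.p 0).qs P') ∈
      Id C.W r := by
    have h1 := ((C.p 0).qs_mem_Id hr).mpr hP'e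
    rw [map_sub, qs_eval] at h1
    exact h1
  have e1 : (C.p 0).qs (p1.qs ((T.p ta).qs (g a₀))) - MvPolynomial.eval Y (MvPolynomial.map (C.p 1).qs P') ∈
      Id C.W r := by
    have h1 := ((C.p 1).qs_mem_Id hr).mpr hP'e
    rw [map_sub, qs_eval, hcg] at h1
    simp only [hco] at h1
    exact h1
  have e2 : MvPolynomial.eval Y (MvPolynomial.map (C.p 0).qs P') -
      MvPolynomial.eval Y (MvPolynomial.map (C.p 1).qs P') ∈ Id C.W r := by
    have h1 := (Id C.W r).sub_mem e1 e0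
    rwa [sub_sub_sub_cancel_left] at h1
  have k0 : MvPolynomial.map (C.p 0).qs P' ∈ PK U1 := map_PK (C.p 0) hP'k
  have k1 : MvPolynomial.map (C.p 1).qs P' ∈ PK U2 := map_PK (C.p 1) hP'k
  have e3 : ∀ m, (MvPolynomial.map (C.p 0).qs P').coeff m - (MvPolynomial.map (C.p 1).qs P').coeff m ∈
      Id C.W r := by
    intro m
    exact mv_small_unique one_pos le_rfl (Rl_iff_Rt.mp hYr) hr le_rfl
      (PKr_of_PK le_rfl (PK_mono le_sup_right k0)) (PKr_of_PK le_rfl (PK_mono le_sup_left k1)) e2 m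
  have e4 : ∀ m, dg ((MvPolynomial.map (C.p 0).qs P').coeff m) r ≤ ⊥ := by
    intro m
    apply le_of_markov (A := U1) (B := U2) (C := ⊥) _ _ j2.1
    · exact ((dg_mono _ hr).trans (k0 m)).trans le_sup_left
    · rw [dg_eq_of_sub_mem (e3 m) le_rfl hr]
      exact ((dg_mono _ hr).trans (k1 m)).trans le_sup_left
  obtain ⟨Θ, hΘ⟩ := exists_round_mv (MvPolynomial.map (C.p 0).qs P') hr0 hr
  refine ⟨C.W, (C.p 0).comp (p1.comp (T.p ta)), Θ, fun m => (hΘ m).1.trans (e4 m), ?_⟩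
  have e5 : MvPolynomial.eval Y (MvPolynomial.map (C.p 0).qs P' - Θ) ∈ Id C.W r := by
    apply eval_mem_ideal
    intro m
    rw [MvPolynomial.coeff_sub]
    exact (hΘ m).2
  rw [map_sub] at e5
  have e6 := (Id C.W r).add_mem e0 e5
  rw [sub_add_sub_cancel] at e6
  simp only [Pj.comp_qs]
  exact e6

/-- the corrected form of `ST_STAR` of `Helper57/TA/Def.lean` (there `t` was not tied to `q`) -/
def ST_STAR2 : Prop :=
  ∀ (S : Sp) (D : ℕ) (γ : Type) (_ : Fintype γ) (g : γ → QS S) (q : Fin D → QS S) (t : QS S)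
    (x f : Fin D → Fin D → QS S) (_ : Star S D g q t x f) (a₀ : γ) (ta : Fin D) (r : ℝ), 0 < r → r ≤ 1 →
    q ta = t → (∀ i, x i ta = 1) → dg (g a₀) 1 ≤ vd q 1 →
    (∀ i, WPol (vd (x i) 1 ⊔ vd (f i) 1) t (g a₀) r) →
    ∃ (W : Sp) (p : Pj W S) (Θ : MvPolynomial (Fin D) (QS W)), Θ ∈ PK ⊥ ∧
      p.qs (g a₀) - MvPolynomial.eval (fun a => p.qs (q a)) Θ ∈ Id W r

theorem st_STAR2 : ST_STAR2 := by
  intro S D γ _ g q t x f T a₀ ta r h0 hr h1 h2 h3 h4
  exact star g q t x f T a₀ ta h1 h2 h0.le hr h3 h4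

end

end Pool.Agent.Helper81.TA
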