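import Pool.Agent.Helper81.TA.StarT
import Pool.Agent.Helper45.UC.Ev

/-! (STARE): finitely many functions of a real point which are polynomials along the lines of finitely many types through
the point are, on an event of an extension, polynomials in the point with coefficients of rate zero, modulo small
functions, if there are no labels over independent informations. -/

set_option autoImplicit false

namespace Pool.Agent.Helper81.TA

open Finset Filter Topology Pool.Agent.Helper69.RK Pool.Agent.Helper31.EC Pool.Agent.Helper31.EC.Sp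
open Pool.Agent.Helper31.EC.QS Pool.Agent.Helper57.TA
open Pool.Agent.Helper10.JET (NLC span_copies)
open Pool.Agent.Helper45.UC (Ev)

noncomputable section

variable {S : Sp}

/-- the directions of copies are independent of the common information -/
theorem ind_v {σ : Type} [Fintype σ] {F : σ → QS S} {d : ℕ} (C : CQ S F d) (V : Fin (d + 1) → S.L)
    (hV : ∀ l, I (V l) (vd F 1) ⊥ = 0) (s : Finset (Fin (d + 1))) :
    I (s.sup fun l => (C.p l).map (V l)) C.v ⊥ = 0 := by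
  classical
  have h2 := C.h_sup s V
  have h3 := h_finsup_le s (fun l => (C.p l).map (V l)) (⊥ : C.W.L)
  have h4 : ∀ l, h ((C.p l).map (V l)) (⊥ : C.W.L) = h (V l) (vd F 1) := by
    intro l
    have h5 := hV l
    rw [I_eq, sup_bot_eq] at h5
    have h6 := (C.p l).h_map (V l) ⊥
    rw [Pj.map_bot] at h6
    rw [h6]
    linarith
  rw [Finset.sum_congr rfl fun l _ => h4 l] at h3
  apply le_antisymm _ (I_nonneg _ _ _)
  rw [I_eq, sup_bot_eq]
  linarith

/-- an extension of an event is an event of an extension -/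
theorem ev_out {S V T : Sp} (p : Pj V S) (e : Ev T V) {D : ℕ} {γ : Type} (q : Fin D → QS S) (g : γ → QS S)
    (Θ : γ → MvPolynomial (Fin D) (QS T)) {r : ℝ} (hr : r ≤ 1) (h1 : ∀ c, Θ c ∈ PK ⊥)
    (h2 : ∀ c, e.r (p.qs (g c)) - MvPolynomial.eval (fun a => e.r (p.qs (q a))) (Θ c) ∈ Id T r) :
    ∃ (W : Sp) (t : Pj W S) (E : ∀ k, (W.F k).Ω → Prop) (hE : 0 < ul (W.pr E))
      (Θ' : γ → MvPolynomial (Fin D) (QS (W.rest E))), (∀ c, Θ' c ∈ PK ⊥) ∧
      ∀ c, QS.rest E hE (t.qs (g c)) - MvPolynomial.eval (fun a => QS.rest E hE (t.qs (q a))) (Θ' c) ∈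
        Id (W.rest E) r := by
  obtain ⟨E, hE, q'⟩ := e
  have key : ∀ x : QS V, (Pool.Agent.Helper70.FW.gJ q').qs (q'.qs (QS.rest E hE x)) =
      QS.rest (Pool.Agent.Helper70.FW.gD q') (Pool.Agent.Helper70.FW.gD_pos q' hE)
        ((Pool.Agent.Helper46.LIN.liftP q').qs x) := by
    intro x
    apply (Pool.Agent.Helper70.FW.gR q').qs_injective
    rw [Pool.Agent.Helper70.FW.gR_gJ_qs, Pool.Agent.Helper70.FW.gR_qs q' hE]
  refine ⟨Pool.Agent.Helper46.LIN.lift q', (Pool.Agent.Helper46.LIN.liftP q').comp p,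
    Pool.Agent.Helper70.FW.gD q', Pool.Agent.Helper70.FW.gD_pos q' hE,
    fun c => MvPolynomial.map (Pool.Agent.Helper70.FW.gJ q').qs (Θ c), fun c => ?_, fun c => ?_⟩
  · have h3 := map_PK (Pool.Agent.Helper70.FW.gJ q') (h1 c)
    rwa [Pj.map_bot] at h3
  · have h3 := ((Pool.Agent.Helper70.FW.gJ q').qs_mem_Id hr).mpr (h2 c)
    rw [map_sub, qs_eval] at h3
    have e1 : ∀ x : QS S, (Pool.Agent.Helper70.FW.gJ q').qs ((Ev.mk E hE q').r (p.qs x)) =
        QS.rest (Pool.Agent.Helper70.FW.gD q') (Pool.Agent.Helper70.FW.gD_pos q' hE)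
          (((Pool.Agent.Helper46.LIN.liftP q').comp p).qs x) := by
      intro x
      rw [Pj.comp_qs, ← key]
      rfl
    rw [e1] at h3
    simp only [e1] at h3
    exact h3

/-- **STAR ON AN EVENT** -/
theorem stare {d : ℕ} {ι : Type} [Fintype ι] [Nonempty ι] {O : S.L} {ξ : ι → S.L} (hL : NLC O ξ)
    {q : Fin (d + 1) → QS S} {ta : Fin (d + 1)} {u ft : ι → Fin (d + 1) → QS S} (hq : vd q 1 ≤ O) (hR : Rl q ⊥)
    (he : ∀ i a, q a = ft i a + q ta * u i a) (hu : ∀ i, u i ta = 1) (hft : ∀ i, vd (ft i) 1 ≤ ξ i)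
    (r1 : ∀ i, I (vd (u i) 1) O ⊥ = 0) {γ : Type} [Fintype γ] (g : γ → QS S) (hg : ∀ c, dg (g c) 1 ≤ vd q 1) {r : ℝ}
    (hr0 : 0 ≤ r) (hr : r ≤ 1) (hw : ∀ c i, WPol (vd (u i) 1 ⊔ vd (ft i) 1) (q ta) (g c) r) :
    ∃ (T : Sp) (p : Pj T S) (E : ∀ k, (T.F k).Ω → Prop) (hE : 0 < ul (T.pr E))
      (Θ : γ → MvPolynomial (Fin (d + 1)) (QS (T.rest E))), (∀ c, Θ c ∈ PK ⊥) ∧
      ∀ c, QS.rest E hE (p.qs (g c)) - MvPolynomial.eval (fun a => QS.rest E hE (p.qs (q a))) (Θ c) ∈
        Id (T.rest E) r := by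
  classical
  -- the common variables
  obtain ⟨F, hF1, hF2⟩ : ∃ F : Fin (d + 1) ⊕ γ → QS S, (∀ a, F (Sum.inl a) = q a) ∧ ∀ c, F (Sum.inr c) = g c :=
    ⟨Sum.elim q g, fun _ => rfl, fun _ => rfl⟩
  have hFq : vd F 1 = vd q 1 := by
    apply le_antisymm
    · rw [vd_le]
      rintro (a | c)
      · rw [hF1]
        exact dg_le_vd q 1 a
      · rw [hF2]
        exact hg c
    · rw [vd_le]
      intro a
      rw [← hF1]
      exact dg_le_vd F 1 (Sum.inl a)
  obtain ⟨C⟩ := exists_CQ F d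
  have cq : ∀ l a, (C.p l).qs (q a) = (C.p 0).qs (q a) := fun l a => by
    have h1 := C.com l 0 (Sum.inl a)
    rwa [hF1] at h1
  have cg : ∀ l c, (C.p l).qs (g c) = (C.p 0).qs (g c) := fun l c => by
    have h1 := C.com l 0 (Sum.inr c)
    rwa [hF2] at h1
  obtain ⟨i, E, hE, hdet⟩ := span_copies hL hq hR he hft r1 (by rw [hFq]; exact hq) C
  obtain ⟨e, he'⟩ : ∃ e : Ev (C.W.rest E) C.W, e = ⟨E, hE, Pj.id _⟩ := ⟨_, rfl⟩
  have her : ∀ x, e.r x = QS.rest E hE x := by
    intro x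
    rw [he']
    show (Pj.id _).qs _ = _
    rw [Pj.id_qs]
  -- the data of the star
  obtain ⟨X, hX⟩ : ∃ X : Matrix (Fin (d + 1)) (Fin (d + 1)) (QS (C.W.rest E)), X =
    Matrix.of fun l a => e.r ((C.p l).qs (u (i l) a)) := ⟨_, rfl⟩
  have hXa : ∀ l a, X l a = e.r ((C.p l).qs (u (i l) a)) := fun l a => by rw [hX]; rfl
  have hXu : IsUnit X.det := by
    rw [RingHom.map_det] at hdet
    have h1 : (QS.rest E hE).mapMatrix (Matrix.of fun l a => (C.p l).qs (u (i l) a)) = X := by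
      ext l a
      rw [hXa, her]
      rfl
    rw [← h1]
    exact hdet
  obtain ⟨y, hy⟩ : ∃ y : Fin (d + 1) → QS (C.W.rest E), y = fun a => e.r ((C.p 0).qs (q a)) := ⟨_, rfl⟩
  have hya : ∀ a, y a = e.r ((C.p 0).qs (q a)) := fun a => by rw [hy]
  have hyl : ∀ l a, y a = e.r ((C.p l).qs (q a)) := fun l a => by rw [hya, cq l]
  have hvy : vd y 1 = e.m ((C.p 0).map (vd q 1)) := by
    rw [hy, e.r_vd, (C.p 0).qs_vd]
  have hvX : vd (ent X) 1 ≤ e.m (Finset.univ.sup fun l => (C.p l).map (vd (u (i l)) 1)) := by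
    rw [vd_le]
    rintro ⟨l, a⟩
    show dg (X l a) 1 ≤ _
    rw [hXa, e.r_dg, (C.p l).qs_dg]
    apply e.m_mono
    refine ((C.p l).map_mono (dg_le_vd (u (i l)) 1 a)).trans ?_
    exact Finset.le_sup (f := fun l => (C.p l).map (vd (u (i l)) 1)) (Finset.mem_univ l)
  have hi0 : I (vd (ent X) 1) (vd y 1) ⊥ = 0 := by
    have h1 := ind_v C (fun l => vd (u (i l)) 1) (fun l => by
      have h2 := r1 (i l)
      rw [hFq]
      exact I_zero_mono h2 le_sup_left (hq.trans le_sup_left)) Finset.univ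
    have h2 := e.I_zero h1
    rw [e.m_bot] at h2
    refine I_zero_mono h2 (hvX.trans le_sup_left) (le_trans (le_of_eq ?_) le_sup_left)
    rw [hvy, ← hFq]
    rfl
  have hyr : Rl y (vd (ent X) 1) := by
    have h1 : Rl y ⊥ := by
      have h2 := e.rl (hR.pull (C.p 0))
      rw [Pj.map_bot, e.m_bot] at h2
      rw [hy]
      exact h2
    rw [I_comm, I_zero_iff_h, sup_bot_eq] at hi0
    unfold Rl at h1 ⊢
    rw [hi0]
    exact h1
  obtain ⟨W, s, Θ, h1, h2⟩ := star_fam X hXu y ta (fun l => by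
      rw [hXa, hu, map_one, map_one]) hyr hi0 (fun c => e.r ((C.p 0).qs (g c))) (fun c => by
      rw [hvy, e.r_dg, (C.p 0).qs_dg]
      exact e.m_mono ((C.p 0).map_mono (hg c))) hr0 hr (fun c l => by
      obtain ⟨k, α, a1, a2⟩ := hw c (i l)
      refine ⟨k, fun j => e.r ((C.p l).qs (α j)), fun j => ?_, ?_⟩
      · rw [e.r_dg, (C.p l).qs_dg]
        refine (e.m_mono ((C.p l).map_mono (a1 j))).trans ?_
        rw [Pj.map_sup, e.m_sup]
        apply sup_le_sup
        · rw [← (C.p l).qs_vd, ← e.r_vd]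
          exact le_of_eq (congrArg (fun f => vd f 1) (funext fun a => (hXa l a).symm))
        · rw [← (C.p l).qs_vd, ← e.r_vd]
          refine le_of_eq (congrArg (fun f => vd f 1) (funext fun a => ?_))
          rw [hXa, hyl l a, hyl l ta, he (i l) a, map_add, map_mul, map_add, map_mul]
          ring
      · have h3 := e.r_mem hr (((C.p l).qs_mem_Id hr).mpr a2)
        rw [map_sub, pe_map, map_sub, e.r_pe, cg] at h3
        rw [hyl l ta]
        exact h3)
  refine ev_out (C.p 0) (e.comp s) q g Θ hr h1 fun c => ?_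
  have h3 := h2 c
  rw [hy] at h3
  simp only [Ev.comp_r]
  exact h3

end

end Pool.Agent.Helper81.TA
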