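import Pool.Agent.Helper57.TA.Def

/-! LEMMA SEP up to a level: separately weakly polynomial functions of real variables, modulo small functions. -/

set_option autoImplicit false

namespace Pool.Agent.Helper81.TA

open Finset Filter Topology Pool.Agent.Helper69.RK Pool.Agent.Helper31.EC Pool.Agent.Helper31.EC.Sp
open Pool.Agent.Helper31.EC.QS Pool.Agent.Helper57.TA

noncomputable section

variable {S : Sp}

/-- two variables, up to level `r` -/
theorem sep2r {k : ℕ} {ι : Type} [Fintype ι] (F : ι → QS S) (s t g : QS S) (G1 G2 : Fin (k + 1) → QS S)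
    (hst : h (dg s 1 ⊔ dg t 1) (vd F 1) = 2) (h1 : vd G1 1 ≤ dg t 1 ⊔ vd F 1) (h2 : vd G2 1 ≤ dg s 1 ⊔ vd F 1)
    {r : ℝ} (hr0 : 0 ≤ r) (hr : r ≤ 1)
    (e1 : g - pe G1 s ∈ Id S r) (e2 : g - pe G2 t ∈ Id S r) :
    ∃ (W : Sp) (p : Pj W S) (e : Fin (k + 1) → Fin (k + 1) → QS W), (∀ a b, dg (e a b) 1 ≤ p.map (vd F 1)) ∧
      ∀ b, p.qs (G2 b) - pe (fun a => e a b) (p.qs s) ∈ Id W r := by
  classical
  -- entropies in S
  have ht : h (dg t 1) (vd F 1) = 1 ∧ h (dg s 1) (dg t 1 ⊔ vd F 1) = 1 := by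
    have a1 : h (dg s 1 ⊔ dg t 1) (vd F 1) = h (dg t 1) (vd F 1) + h (dg s 1) (dg t 1 ⊔ vd F 1) := by
      rw [sup_comm, h_chain]
    have a2 := h_dg_le_one t (vd F 1)
    have a3 := h_dg_le_one s (dg t 1 ⊔ vd F 1)
    constructor <;> linarith
  -- first round of copies: given t, G1, F
  set f1 : Unit ⊕ (Fin (k + 1) ⊕ ι) → QS S := Sum.elim (fun _ => t) (Sum.elim G1 F) with hf1
  have v1 : vd f1 1 = dg t 1 ⊔ vd F 1 := by
    apply le_antisymm
    · rw [vd_le]
      rintro (a | a | a)
      · exact le_sup_left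
      · exact (dg_le_vd G1 1 a).trans h1
      · exact (dg_le_vd F 1 a).trans le_sup_right
    · apply sup_le
      · exact dg_le_vd f1 1 (Sum.inl ())
      · rw [vd_le]
        intro a
        exact dg_le_vd f1 1 (Sum.inr (Sum.inr a))
  obtain ⟨C1⟩ := exists_CQ f1 k
  have ct : ∀ i, (C1.p i).qs t = (C1.p 0).qs t := fun i => C1.com i 0 (Sum.inl ())
  have cG : ∀ i a, (C1.p i).qs (G1 a) = (C1.p 0).qs (G1 a) := fun i a => C1.com i 0 (Sum.inr (Sum.inl a))
  have cF : ∀ i a, (C1.p i).qs (F a) = (C1.p 0).qs (F a) := fun i a => C1.com i 0 (Sum.inr (Sum.inr a))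
  have cFv : ∀ i, (C1.p i).map (vd F 1) = (C1.p 0).map (vd F 1) := by
    intro i
    rw [← Pj.qs_vd, ← Pj.qs_vd]
    congr 1
    funext a
    exact cF i a
  have r1 : Rl (fun i : Fin (k + 1) => (C1.p i).qs s) C1.v := C1.rl_one s (by rw [v1]; exact ht.2)
  have w1 : C1.v = (C1.p 0).map (dg t 1) ⊔ (C1.p 0).map (vd F 1) := by
    show (C1.p 0).map (vd f1 1) = _
    rw [v1, Pj.map_sup]
  have htS : h ((C1.p 0).map (dg t 1)) (vd (fun i : Fin (k + 1) => (C1.p i).qs s) 1 ⊔ (C1.p 0).map (vd F 1)) = 1 := by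
    apply le_antisymm
    · rw [← (C1.p 0).qs_dg]
      exact h_dg_le_one _ _
    · have b1 := h_chain ((C1.p 0).map (dg t 1)) (vd (fun i : Fin (k + 1) => (C1.p i).qs s) 1) ((C1.p 0).map (vd F 1))
      have b2 := h_chain (vd (fun i : Fin (k + 1) => (C1.p i).qs s) 1) ((C1.p 0).map (dg t 1)) ((C1.p 0).map (vd F 1))
      rw [sup_comm] at b2
      rw [b2] at b1
      have b3 : h (vd (fun i : Fin (k + 1) => (C1.p i).qs s) 1) ((C1.p 0).map (dg t 1) ⊔ (C1.p 0).map (vd F 1)) =
          (k + 1 : ℕ) := by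
        rw [← w1]
        have := r1
        unfold Rl at this
        rw [this, Fintype.card_fin]
      have b4 : h ((C1.p 0).map (dg t 1)) ((C1.p 0).map (vd F 1)) = 1 := by rw [Pj.h_map]; exact ht.1
      have b5 := h_sd_le (fun i : Fin (k + 1) => (C1.p i).qs s) Finset.univ ((C1.p 0).map (vd F 1))
      rw [sd_univ, Finset.card_univ, Fintype.card_fin] at b5
      linarith
  -- second round: given all s^i, G2^i, F
  set f2 : Fin (k + 1) ⊕ ((Fin (k + 1) × Fin (k + 1)) ⊕ ι) → QS C1.W :=
    Sum.elim (fun i => (C1.p i).qs s) (Sum.elim (fun a => (C1.p a.1).qs (G2 a.2)) (fun a => (C1.p 0).qs (F a))) with hf2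
  have v2 : vd f2 1 = vd (fun i : Fin (k + 1) => (C1.p i).qs s) 1 ⊔ (C1.p 0).map (vd F 1) := by
    apply le_antisymm
    · rw [vd_le]
      rintro (a | a | a)
      · exact (dg_le_vd (fun i : Fin (k + 1) => (C1.p i).qs s) 1 a).trans le_sup_left
      · show dg ((C1.p a.1).qs (G2 a.2)) 1 ≤ _
        rw [(C1.p a.1).qs_dg]
        refine ((C1.p a.1).map_mono ((dg_le_vd G2 1 a.2).trans h2)).trans ?_
        rw [Pj.map_sup, cFv, ← (C1.p a.1).qs_dg]
        exact sup_le_sup_right (dg_le_vd (fun i : Fin (k + 1) => (C1.p i).qs s) 1 a.1) _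
      · show dg ((C1.p 0).qs (F a)) 1 ≤ _
        rw [(C1.p 0).qs_dg]
        exact ((C1.p 0).map_mono (dg_le_vd F 1 a)).trans le_sup_right
    · apply sup_le
      · rw [vd_le]
        intro a
        exact dg_le_vd f2 1 (Sum.inl a)
      · rw [← Pj.qs_vd, vd_le]
        intro a
        exact dg_le_vd f2 1 (Sum.inr (Sum.inr a))
  obtain ⟨C2⟩ := exists_CQ f2 k
  have cs : ∀ i j, (C2.p j).qs ((C1.p i).qs s) = (C2.p 0).qs ((C1.p i).qs s) := fun i j => C2.com j 0 (Sum.inl i)
  have cG2 : ∀ i b j, (C2.p j).qs ((C1.p i).qs (G2 b)) = (C2.p 0).qs ((C1.p i).qs (G2 b)) :=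
    fun i b j => C2.com j 0 (Sum.inr (Sum.inl (i, b)))
  have cF2 : ∀ j a, (C2.p j).qs ((C1.p 0).qs (F a)) = (C2.p 0).qs ((C1.p 0).qs (F a)) :=
    fun j a => C2.com j 0 (Sum.inr (Sum.inr a))
  have cF2v : ∀ j, (C2.p j).map ((C1.p 0).map (vd F 1)) = (C2.p 0).map ((C1.p 0).map (vd F 1)) := by
    intro j
    rw [← Pj.qs_vd, ← Pj.qs_vd, ← Pj.qs_vd]
    congr 1
    funext a
    exact cF2 j a
  set Sx : Fin (k + 1) → QS C2.W := fun i => (C2.p 0).qs ((C1.p i).qs s) with hSx
  set Tx : Fin (k + 1) → QS C2.W := fun j => (C2.p j).qs ((C1.p 0).qs t) with hTx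
  set Fv : C2.W.L := (C2.p 0).map ((C1.p 0).map (vd F 1)) with hFv
  have r2 : Rl Tx C2.v := C2.rl_one ((C1.p 0).qs t) (by rw [v2, (C1.p 0).qs_dg]; exact htS)
  have w2 : C2.v = vd Sx 1 ⊔ Fv := by
    show (C2.p 0).map (vd f2 1) = _
    rw [v2, Pj.map_sup, ← Pj.qs_vd]
  have r3 : Rl Sx ⊥ := by
    unfold Rl
    have b1 : vd Sx 1 = (C2.p 0).map (vd (fun i : Fin (k + 1) => (C1.p i).qs s) 1) := by rw [← Pj.qs_vd]
    have b2 := r1.anti (bot_le : ⊥ ≤ C1.v)
    unfold Rl at b2
    rw [b1, ← Pj.map_bot (C2.p 0), Pj.h_map]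
    exact b2
  have hI : I (vd Sx 1) (vd Tx 1) Fv = 0 := by
    apply le_antisymm _ (I_nonneg _ _ _)
    rw [I_eq']
    have b1 : h (vd Tx 1) (vd Sx 1 ⊔ Fv) = (k + 1 : ℕ) := by
      rw [← w2]
      have := r2
      unfold Rl at this
      rw [this, Fintype.card_fin]
    have b2 := h_sd_le Tx Finset.univ Fv
    rw [sd_univ, Finset.card_univ, Fintype.card_fin] at b2
    linarith
  -- matrices
  set VS : Matrix (Fin (k + 1)) (Fin (k + 1)) (QS C2.W) := Matrix.vandermonde Sx with hVS
  set VT : Matrix (Fin (k + 1)) (Fin (k + 1)) (QS C2.W) := Matrix.vandermonde Tx with hVT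
  set M1 : Matrix (Fin (k + 1)) (Fin (k + 1)) (QS C2.W) := fun j a => (C2.p j).qs ((C1.p 0).qs (G1 a)) with hM1
  set M2 : Matrix (Fin (k + 1)) (Fin (k + 1)) (QS C2.W) := fun i b => (C2.p 0).qs ((C1.p i).qs (G2 b)) with hM2
  have uS : IsUnit VS.det := r3.isUnit_vandermonde
  have uT : IsUnit VT.det := r2.isUnit_vandermonde
  have uT' : IsUnit VT.transpose.det := by rw [Matrix.det_transpose]; exact uT
  have vS : ∀ i a, VS i a = Sx i ^ (a : ℕ) := fun i a => Matrix.vandermonde_apply Sx i a
  have vT : ∀ i a, VT i a = Tx i ^ (a : ℕ) := fun i a => Matrix.vandermonde_apply Tx i a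
  have hg1 : ∀ i j, (C2.p j).qs ((C1.p i).qs g) - (VS * M1.transpose) i j ∈ Id C2.W r := by
    intro i j
    have a1 := ((C2.p j).qs_mem_Id hr).mpr (((C1.p i).qs_mem_Id hr).mpr e1)
    have a2 : (C2.p j).qs ((C1.p i).qs (pe G1 s)) = (VS * M1.transpose) i j := by
      rw [pe_map, pe_map]
      unfold pe
      rw [Matrix.mul_apply]
      apply Finset.sum_congr rfl
      intro a _
      show (C2.p j).qs ((C1.p i).qs (G1 a)) * (C2.p j).qs ((C1.p i).qs s) ^ (a : ℕ) = VS i a * M1 j a
      rw [cG, cs, vS, mul_comm]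
    rwa [map_sub, map_sub, a2] at a1
  have hg2 : ∀ i j, (C2.p j).qs ((C1.p i).qs g) - (M2 * VT.transpose) i j ∈ Id C2.W r := by
    intro i j
    have a1 := ((C2.p j).qs_mem_Id hr).mpr (((C1.p i).qs_mem_Id hr).mpr e2)
    have a2 : (C2.p j).qs ((C1.p i).qs (pe G2 t)) = (M2 * VT.transpose) i j := by
      rw [pe_map, pe_map]
      unfold pe
      rw [Matrix.mul_apply]
      apply Finset.sum_congr rfl
      intro b _
      show (C2.p j).qs ((C1.p i).qs (G2 b)) * (C2.p j).qs ((C1.p i).qs t) ^ (b : ℕ) = M2 i b * VT j b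
      rw [cG2, ct, vT]
    rwa [map_sub, map_sub, a2] at a1
  have hM : ∀ i j, (M2 * VT.transpose - VS * M1.transpose) i j ∈ Id C2.W r := by
    intro i j
    have a1 := (Id C2.W r).sub_mem (hg1 i j) (hg2 i j)
    have a2 : (C2.p j).qs ((C1.p i).qs g) - (VS * M1.transpose) i j -
        ((C2.p j).qs ((C1.p i).qs g) - (M2 * VT.transpose) i j) =
        (M2 * VT.transpose - VS * M1.transpose) i j := by
      rw [Matrix.sub_apply]
      ring
    rwa [a2] at a1
  set e : Matrix (Fin (k + 1)) (Fin (k + 1)) (QS C2.W) := VS⁻¹ * M2 with he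
  have he2 : ∀ a b, e a b - (M1.transpose * (VT.transpose)⁻¹) a b ∈ Id C2.W r := by
    intro a b
    have b1 : VS⁻¹ * (M2 * VT.transpose - VS * M1.transpose) * (VT.transpose)⁻¹ =
        e - M1.transpose * (VT.transpose)⁻¹ := by
      rw [Matrix.mul_sub, Matrix.sub_mul, ← Matrix.mul_assoc VS⁻¹ M2, Matrix.mul_assoc (VS⁻¹ * M2),
        Matrix.mul_nonsing_inv _ uT', Matrix.mul_one, ← Matrix.mul_assoc VS⁻¹ VS, Matrix.nonsing_inv_mul _ uS,
        Matrix.one_mul]
    have b2 : (VS⁻¹ * (M2 * VT.transpose - VS * M1.transpose) * (VT.transpose)⁻¹) a b ∈ Id C2.W r := by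
      rw [Matrix.mul_apply]
      apply (Id C2.W r).sum_mem
      intro j _
      apply (Id C2.W r).mul_mem_right
      rw [Matrix.mul_apply]
      apply (Id C2.W r).sum_mem
      intro i _
      exact (Id C2.W r).mul_mem_left _ (hM i j)
    rw [b1, Matrix.sub_apply] at b2
    exact b2
  have k1 : ∀ a b, dg (e a b) 1 ≤ vd Sx 1 ⊔ Fv := by
    intro a b
    apply mul_mem' (Kn C2.W 1 le_rfl (vd Sx 1 ⊔ Fv)) VS⁻¹ M2
    · intro i j
      apply inv_mem VS le_rfl _ _ uS
      intro i j
      rw [vS]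
      exact (Kn C2.W 1 le_rfl (vd Sx 1 ⊔ Fv)).pow_mem (x := Sx i) ((dg_le_vd Sx 1 i).trans le_sup_left) _
    · intro i b
      show dg ((C2.p 0).qs ((C1.p i).qs (G2 b))) 1 ≤ _
      rw [(C2.p 0).qs_dg, (C1.p i).qs_dg]
      refine ((C2.p 0).map_mono ((C1.p i).map_mono ((dg_le_vd G2 1 b).trans h2))).trans ?_
      rw [Pj.map_sup, Pj.map_sup, cFv, ← (C1.p i).qs_dg, ← (C2.p 0).qs_dg]
      exact sup_le_sup_right (dg_le_vd Sx 1 i) _
  have k2 : ∀ a b, dg (e a b) r ≤ vd Tx 1 ⊔ Fv := by
    intro a b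
    rw [dg_eq_of_sub_mem (he2 a b) le_rfl hr]
    refine (dg_mono _ hr).trans ?_
    apply mul_mem' (Kn C2.W 1 le_rfl (vd Tx 1 ⊔ Fv)) M1.transpose (VT.transpose)⁻¹
    · intro a j
      rw [Matrix.transpose_apply]
      show dg ((C2.p j).qs ((C1.p 0).qs (G1 a))) 1 ≤ _
      rw [(C2.p j).qs_dg, (C1.p 0).qs_dg]
      refine ((C2.p j).map_mono ((C1.p 0).map_mono ((dg_le_vd G1 1 a).trans h1))).trans ?_
      rw [Pj.map_sup, Pj.map_sup, cF2v, ← (C1.p 0).qs_dg, ← (C2.p j).qs_dg]
      exact sup_le_sup_right (dg_le_vd Tx 1 j) _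
    · intro i j
      apply inv_mem VT.transpose le_rfl _ _ uT'
      intro i j
      rw [Matrix.transpose_apply, vT]
      exact (Kn C2.W 1 le_rfl (vd Tx 1 ⊔ Fv)).pow_mem (x := Tx j) ((dg_le_vd Tx 1 j).trans le_sup_left) _
  have hVe : VS * e = M2 := by
    rw [he, ← Matrix.mul_assoc, Matrix.mul_nonsing_inv _ uS, Matrix.one_mul]
  have k3 : ∀ a b, ∃ g' : QS C2.W, dg g' 1 ≤ Fv ∧ e a b - g' ∈ Id C2.W r := by
    intro a b
    have c1 : dg (e a b) r ≤ Fv := le_of_markov ((dg_mono _ hr).trans (k1 a b)) (k2 a b) hI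
    obtain ⟨g', c2, c3⟩ := exists_round (e a b) hr0 hr
    exact ⟨g', c2.trans c1, c3⟩
  choose e' he1' he2' using k3
  refine ⟨C2.W, (C2.p 0).comp (C1.p 0), e', fun a b => ?_, fun b => ?_⟩
  · rw [Pj.comp_map]
    exact he1' a b
  · rw [Pj.comp_qs, Pj.comp_qs]
    have b1 : M2 0 b = (VS * e) 0 b := by rw [hVe]
    rw [Matrix.mul_apply] at b1
    have b2 : M2 0 b - pe (fun a => e' a b) (Sx 0) = ∑ a, VS 0 a * (e a b - e' a b) := by
      rw [b1]
      unfold pe
      rw [← Finset.sum_sub_distrib]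
      apply Finset.sum_congr rfl
      intro a _
      rw [vS]
      ring
    show M2 0 b - pe (fun a => e' a b) (Sx 0) ∈ Id C2.W r
    rw [b2]
    apply (Id C2.W r).sum_mem
    intro a _
    exact (Id C2.W r).mul_mem_left _ (he2' a b)

/-- LEMMA SEP up to level `r`: a function which is weakly polynomial in every one of the real variables `s` is a
polynomial with free coefficients (in an extension) -/
theorem sepr {k : ℕ} {r : ℝ} (hr0 : 0 ≤ r) (hr : r ≤ 1) : ∀ (D : ℕ) {S : Sp} {ι : Type} [Fintype ι] (F : ι → QS S) (s : Fin D → QS S) (g : QS S),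
    Rl s (vd F 1) → dg g 1 ≤ vd s 1 ⊔ vd F 1 →
    (∀ i, ∃ G : Fin (k + 1) → QS S, vd G 1 ≤ sd s (Finset.univ.erase i) ⊔ vd F 1 ∧ g - pe G (s i) ∈ Id S r) →
    ∃ (W : Sp) (p : Pj W S) (P : MvPolynomial (Fin D) (QS W)), P ∈ PK (p.map (vd F 1)) ∧ P.totalDegree ≤ k * D ∧
      p.qs g - MvPolynomial.eval (fun i => p.qs (s i)) P ∈ Id W r := by
  classical
  intro D
  induction D with
  | zero =>
    intro S ι _ F s g _ hg _
    refine ⟨S, Pj.id S, MvPolynomial.C g, C_mem ?_, ?_, ?_⟩
    · rw [Pj.id_map]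
      refine hg.trans (sup_le ?_ le_rfl)
      rw [vd_le]
      intro i
      exact i.elim0
    · rw [MvPolynomial.totalDegree_C]
      exact Nat.zero_le _
    · rw [MvPolynomial.eval_C, Pj.id_qs, sub_self]
      exact (Id S r).zero_mem
  | succ D ih =>
    intro S ι _ F s g hs hg hG
    choose G hG1 hG2 using hG
    set t := s 0 with ht
    set s' : Fin D → QS S := fun i => s i.succ with hs'
    have a1 : ∀ i : Fin D, sd s (Finset.univ.erase i.succ) = dg t 1 ⊔ sd s' (Finset.univ.erase i) := by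
      intro i
      apply le_antisymm
      · rw [sd_le]
        intro j hj
        rw [Finset.mem_erase] at hj
        induction j using Fin.cases with
        | zero => exact le_sup_left
        | succ j =>
          refine le_trans ?_ le_sup_right
          exact dg_le_sd s' (Finset.mem_erase.mpr ⟨fun hc => hj.1 (by rw [hc]), Finset.mem_univ _⟩)
      · apply sup_le
        · exact dg_le_sd s (Finset.mem_erase.mpr ⟨(Fin.succ_ne_zero i).symm, Finset.mem_univ _⟩)
        · rw [sd_le]
          intro j hj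
          rw [Finset.mem_erase] at hj
          exact dg_le_sd s (Finset.mem_erase.mpr ⟨fun hc => hj.1 (Fin.succ_injective _ hc), Finset.mem_univ _⟩)
    have a2 : sd s (Finset.univ.erase 0) = vd s' 1 := by
      apply le_antisymm
      · rw [sd_le]
        intro j hj
        rw [Finset.mem_erase] at hj
        induction j using Fin.cases with
        | zero => exact absurd rfl hj.1
        | succ j => exact dg_le_vd s' 1 j
      · rw [vd_le]
        intro j
        exact dg_le_sd s (Finset.mem_erase.mpr ⟨Fin.succ_ne_zero j, Finset.mem_univ _⟩)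
    -- first stage
    obtain ⟨W, p, hQ⟩ := ext_all (S := S) (Finset.univ : Finset (Fin D))
      (fun i W p => ∃ e : Fin (k + 1) → Fin (k + 1) → QS W,
        (∀ a b, dg (e a b) 1 ≤ p.map (sd s' (Finset.univ.erase i) ⊔ vd F 1)) ∧
        ∀ b, p.qs (G 0 b) - pe (fun a => e a b) (p.qs (s' i)) ∈ Id W r)
      (by
        rintro i W p W' q ⟨e, h1, h2⟩
        refine ⟨fun a b => q.qs (e a b), fun a b => ?_, fun b => ?_⟩
        · rw [q.qs_dg, Pj.comp_map]
          exact q.map_mono (h1 a b)
        · have c1 := (q.qs_mem_Id hr).mpr (h2 b)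
          rw [map_sub, pe_map] at c1
          rw [Pj.comp_qs, Pj.comp_qs]
          exact c1)
      (by
        intro i W p
        set F' : {j : Fin D // j ≠ i} ⊕ ι → QS W :=
          Sum.elim (fun j => p.qs (s' j.1)) (fun a => p.qs (F a)) with hF'
        have vF : vd F' 1 = p.map (sd s' (Finset.univ.erase i) ⊔ vd F 1) := by
          rw [Pj.map_sup, ← sd_qs, ← vd_qs]
          apply le_antisymm
          · rw [vd_le]
            rintro (j | a)
            · refine le_trans ?_ le_sup_left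
              exact dg_le_sd (fun i => p.qs (s' i)) (Finset.mem_erase.mpr ⟨j.2, Finset.mem_univ _⟩)
            · exact (dg_le_vd (fun a => p.qs (F a)) 1 a).trans le_sup_right
          · apply sup_le
            · rw [sd_le]
              intro j hj
              rw [Finset.mem_erase] at hj
              exact dg_le_vd F' 1 (Sum.inl ⟨j, hj.1⟩)
            · rw [vd_le]
              intro a
              exact dg_le_vd F' 1 (Sum.inr a)
        obtain ⟨W', q, e, h1, h2⟩ := sep2r F' (p.qs (s' i)) (p.qs t) (p.qs g) (fun a => p.qs (G i.succ a))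
          (fun a => p.qs (G 0 a)) (r := r)
          (by
            rw [vF, p.qs_dg, p.qs_dg, ← Pj.map_sup, Pj.h_map]
            have b1 := hs.sub (s := {i.succ, 0}) (t := (Finset.univ.erase i).map (Fin.succEmb D)) (by
              rw [Finset.disjoint_left]
              intro j hj hj'
              rw [Finset.mem_map] at hj'
              obtain ⟨l, hl, rfl⟩ := hj'
              rw [Finset.mem_insert, Finset.mem_singleton] at hj
              rcases hj with hj | hj
              · exact (Finset.mem_erase.mp hl).1 (Fin.succ_injective _ hj)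
              · exact Fin.succ_ne_zero l hj)
            have b2 : sd s ((Finset.univ.erase i).map (Fin.succEmb D)) = sd s' (Finset.univ.erase i) := by
              unfold sd
              rw [Finset.sup_map]
              rfl
            have b3 : sd s {i.succ, 0} = dg (s' i) 1 ⊔ dg t 1 := by
              unfold sd
              rw [Finset.sup_insert, Finset.sup_singleton]
            have b4 : ({i.succ, 0} : Finset (Fin (D + 1))).card = 2 :=
              Finset.card_pair (Fin.succ_ne_zero i)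
            rw [b2, b3, b4] at b1
            exact_mod_cast b1)
          (by
            rw [vd_qs, vF, p.qs_dg, ← Pj.map_sup]
            apply p.map_mono
            refine (hG1 i.succ).trans ?_
            rw [a1, sup_assoc])
          (by
            rw [vd_qs, vF, p.qs_dg, ← Pj.map_sup]
            apply p.map_mono
            refine (hG1 0).trans ?_
            rw [a2, ← sup_assoc]
            apply sup_le_sup_right
            rw [vd_le]
            intro j
            by_cases hj : j = i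
            · rw [hj]; exact le_sup_left
            · exact (dg_le_sd s' (Finset.mem_erase.mpr ⟨hj, Finset.mem_univ _⟩)).trans le_sup_right)
          hr0 hr
          (by
            have b1 := (p.qs_mem_Id hr).mpr (hG2 i.succ)
            rw [map_sub, pe_map] at b1
            exact b1)
          (by
            have b1 := (p.qs_mem_Id hr).mpr (hG2 0)
            rw [map_sub, pe_map] at b1
            exact b1)
        refine ⟨W', q, e, fun a b => ?_, fun b => ?_⟩
        · rw [Pj.comp_map, ← vF]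
          exact h1 a b
        · rw [Pj.comp_qs, Pj.comp_qs]
          exact h2 b)
    have hQ' := fun i => hQ i (Finset.mem_univ i)
    choose e he1 he2 using hQ'
    -- second stage
    obtain ⟨W', q, hR⟩ := ext_all (S := W) (Finset.univ : Finset (Fin (k + 1)))
      (fun b W' q => ∃ P : MvPolynomial (Fin D) (QS W'), P ∈ PK (q.map (p.map (vd F 1))) ∧ P.totalDegree ≤ k * D ∧
        q.qs (p.qs (G 0 b)) - MvPolynomial.eval (fun i => q.qs (p.qs (s' i))) P ∈ Id W' r)
      (by
        rintro b W' q W'' q' ⟨P, h1, h2, h3⟩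
        refine ⟨MvPolynomial.map q'.qs P, ?_, ?_, ?_⟩
        · rw [Pj.comp_map]
          exact map_PK q' h1
        · exact (totalDegree_map_le _ _).trans h2
        · have c1 := (q'.qs_mem_Id hr).mpr h3
          rw [map_sub, qs_eval] at c1
          simp only [Pj.comp_qs]
          exact c1)
      (by
        intro b W' q
        obtain ⟨W'', q', P, h1, h2, h3⟩ := ih (fun a => q.qs (p.qs (F a))) (fun i => q.qs (p.qs (s' i)))
          (q.qs (p.qs (G 0 b)))
          (by
            rw [vd_qs, vd_qs]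
            exact ((hs.comp Fin.succ (Fin.succ_injective D)).pull p).pull q)
          (by
            rw [vd_qs, vd_qs, vd_qs, vd_qs, q.qs_dg, p.qs_dg, ← Pj.map_sup, ← Pj.map_sup]
            apply q.map_mono
            apply p.map_mono
            rw [← a2]
            exact (dg_le_vd (G 0) 1 b).trans (hG1 0))
          (by
            intro i
            refine ⟨fun a => q.qs (e i a b), ?_, ?_⟩
            · rw [vd_qs, vd_qs, vd_qs, sd_qs, sd_qs, ← Pj.map_sup, ← Pj.map_sup]
              apply q.map_mono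
              rw [vd_le]
              intro a
              exact he1 i a b
            · have c1 := (q.qs_mem_Id hr).mpr (he2 i b)
              rw [map_sub, pe_map] at c1
              exact c1)
        refine ⟨W'', q', P, ?_, h2, ?_⟩
        · rw [vd_qs, vd_qs] at h1
          rw [Pj.comp_map]
          exact h1
        · simp only [Pj.comp_qs]
          exact h3)
    have hR' := fun b => hR b (Finset.mem_univ b)
    choose P hP1 hP2 hP3 using hR'
    refine ⟨W', q.comp p, ∑ b : Fin (k + 1), MvPolynomial.rename Fin.succ (P b) * MvPolynomial.X 0 ^ (b : ℕ), ?_, ?_, ?_⟩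
    · rw [Pj.comp_map]
      apply (PK _).sum_mem
      intro b _
      exact (PK _).mul_mem (rename_mem _ (hP1 b)) ((PK _).pow_mem (X_mem _ 0) _)
    · apply (MvPolynomial.totalDegree_finsetSum _ _).trans
      apply Finset.sup_le
      intro b _
      refine (MvPolynomial.totalDegree_mul _ _).trans ?_
      rw [MvPolynomial.totalDegree_X_pow]
      have c1 := (MvPolynomial.totalDegree_rename_le (R := QS W') Fin.succ (P b)).trans (hP2 b)
      have c2 := b.2
      have c3 : k * (D + 1) = k * D + k := by ring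
      omega
    · have d1 := ((q.comp p).qs_mem_Id hr).mpr (hG2 0)
      rw [map_sub, pe_map] at d1
      have d2 : pe (fun a => (q.comp p).qs (G 0 a)) ((q.comp p).qs (s 0)) -
          MvPolynomial.eval (fun i => (q.comp p).qs (s i))
            (∑ b : Fin (k + 1), MvPolynomial.rename Fin.succ (P b) * MvPolynomial.X 0 ^ (b : ℕ)) ∈ Id W' r := by
        rw [map_sum]
        unfold pe
        rw [← Finset.sum_sub_distrib]
        apply (Id W' r).sum_mem
        intro b _
        have c1 : (fun i => q.qs (p.qs (s' i))) = (fun i => (q.comp p).qs (s i)) ∘ Fin.succ := by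
          funext i
          exact (Pj.comp_qs q p (s' i)).symm
        have c2 := hP3 b
        rw [c1] at c2
        rw [← Pj.comp_qs q p (G 0 b)] at c2
        rw [map_mul, map_pow, MvPolynomial.eval_X, MvPolynomial.eval_rename, ← sub_mul]
        exact (Id W' r).mul_mem_right _ c2
      have d3 := (Id W' r).add_mem d1 d2
      rwa [sub_add_sub_cancel] at d3

theorem st_SEPr : ST_SEPr := by
  intro k D S ι _ F s g r h0 hr hs hg hG
  obtain ⟨W, p, P, h1, -, h3⟩ := sepr (k := k) h0.le hr D F s g hs hg hG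
  exact ⟨W, p, P, h1, h3⟩

end

end Pool.Agent.Helper81.TA
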