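import Pool.Agent.Helper81.TA.Star

/-! (STAR) in one space, without copies: a matrix of directions with unit determinant, independent of the point, and
finitely many functions of the point which are polynomials along the lines of the star. -/

set_option autoImplicit false

namespace Pool.Agent.Helper81.TA

open Finset Filter Topology Pool.Agent.Helper69.RK Pool.Agent.Helper31.EC Pool.Agent.Helper31.EC.Sp
open Pool.Agent.Helper31.EC.QS Pool.Agent.Helper57.TA

noncomputable section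

/-- the entries of a matrix -/
def ent {T : Sp} {D : ℕ} (X : Matrix (Fin D) (Fin D) (QS T)) : Fin D × Fin D → QS T := fun u => X u.1 u.2

/-- (STAR), one function -/
theorem star_one {T : Sp} {D : ℕ} (X : Matrix (Fin D) (Fin D) (QS T)) (hu : IsUnit X.det) (y : Fin D → QS T)
    (ta : Fin D) (hXt : ∀ i, X i ta = 1) (hy : Rl y (vd (ent X) 1)) (hi : I (vd (ent X) 1) (vd y 1) ⊥ = 0) (g : QS T)
    (hg : dg g 1 ≤ vd y 1) {r : ℝ} (hr0 : 0 ≤ r) (hr : r ≤ 1)
    (hw : ∀ i, WPol (vd (X i) 1 ⊔ vd (fun a => y a - y ta * X i a) 1) (y ta) g r) :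
    ∃ (W : Sp) (p : Pj W T) (Θ : MvPolynomial (Fin D) (QS W)), Θ ∈ PK ⊥ ∧
      p.qs g - MvPolynomial.eval (fun a => p.qs (y a)) Θ ∈ Id W r := by
  classical
  obtain ⟨F, hF⟩ : ∃ F, F = ent X := ⟨_, rfl⟩
  rw [← hF] at hy hi
  have hXF : ∀ i a, dg (X i a) 1 ≤ vd F 1 := fun i a => by
    rw [hF]
    exact dg_le_vd (ent X) 1 (i, a)
  have hXi : ∀ i a, dg (X⁻¹ i a) 1 ≤ vd F 1 := inv_mem X le_rfl _ hXF hu
  obtain ⟨s, hs⟩ : ∃ s, s = Matrix.vecMul y X⁻¹ := ⟨_, rfl⟩
  have hsy : Matrix.vecMul s X = y := by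
    rw [hs, Matrix.vecMul_vecMul, Matrix.nonsing_inv_mul _ hu, Matrix.vecMul_one]
  have hy1 : ∀ a, y a = ∑ j, s j * X j a := fun a => (congrFun hsy a).symm
  have hs1 : ∀ i, s i = ∑ a, y a * X⁻¹ a i := fun i => by rw [hs]; rfl
  have ht : y ta = ∑ j, s j := by
    rw [hy1]
    apply Finset.sum_congr rfl
    intro j _
    rw [hXt, mul_one]
  -- knowledge
  have hyk : vd y 1 ≤ vd s 1 ⊔ vd F 1 := by
    rw [vd_le]
    intro a
    rw [hy1]
    apply (Kn T 1 le_rfl (vd s 1 ⊔ vd F 1)).sum_mem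
    intro j _
    exact (Kn T 1 le_rfl (vd s 1 ⊔ vd F 1)).mul_mem ((dg_le_vd s 1 j).trans le_sup_left)
      ((hXF j a).trans le_sup_right)
  have hrl : Rl s (vd F 1) := by
    apply Rl.of_ge
    have h1 : Rl y (vd F 1) := hy
    unfold Rl at h1
    rw [← h1]
    refine (h_mono hyk).trans ?_
    rw [h_sup_right_of_le le_rfl]
  have hc : ∀ i, dg (∑ j ∈ Finset.univ.erase i, s j) 1 ≤ sd s (Finset.univ.erase i) ⊔ vd F 1 := by
    intro i
    apply (Kn T 1 le_rfl (sd s (Finset.univ.erase i) ⊔ vd F 1)).sum_mem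
    intro j hj
    exact (dg_le_sd s hj).trans le_sup_left
  have hf : ∀ i a, dg (y a - y ta * X i a) 1 ≤ sd s (Finset.univ.erase i) ⊔ vd F 1 := by
    intro i a
    have h1 : y a - y ta * X i a = ∑ j ∈ Finset.univ.erase i, s j * (X j a - X i a) := by
      have h3 : y a - y ta * X i a = ∑ j, s j * (X j a - X i a) := by
        have h4 : (∑ j, s j * (X j a - X i a)) = (∑ j, s j * X j a) - (∑ j, s j) * X i a := by
          rw [Finset.sum_mul, ← Finset.sum_sub_distrib]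
          apply Finset.sum_congr rfl
          intro j _
          ring
        rw [h4, ← ht, ← hy1]
      rw [h3, ← Finset.add_sum_erase Finset.univ _ (Finset.mem_univ i), sub_self, mul_zero, zero_add]
    rw [h1]
    apply (Kn T 1 le_rfl (sd s (Finset.univ.erase i) ⊔ vd F 1)).sum_mem
    intro j hj
    exact (Kn T 1 le_rfl (sd s (Finset.univ.erase i) ⊔ vd F 1)).mul_mem ((dg_le_sd s hj).trans le_sup_left)
      ((Kn T 1 le_rfl (sd s (Finset.univ.erase i) ⊔ vd F 1)).sub_mem ((hXF j a).trans le_sup_right)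
        ((hXF i a).trans le_sup_right))
  -- weak polynomiality in the variables `s`
  choose k α hα hαe using hw
  obtain ⟨K, hK⟩ : ∃ K, K = Finset.univ.sup k := ⟨_, rfl⟩
  have hGG : ∀ i, ∃ G : Fin (K + 1) → QS T, vd G 1 ≤ sd s (Finset.univ.erase i) ⊔ vd F 1 ∧
      g - pe G (s i) ∈ Id T r := by
    intro i
    have h1 : ∀ j, dg (α i j) 1 ≤ sd s (Finset.univ.erase i) ⊔ vd F 1 := by
      intro j
      refine (hα i j).trans ?_
      apply sup_le
      · rw [vd_le]
        intro a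
        exact (hXF i a).trans le_sup_right
      · rw [vd_le]
        intro a
        exact hf i a
    have hkK : k i ≤ K := by
      rw [hK]
      exact Finset.le_sup (f := k) (Finset.mem_univ i)
    obtain ⟨β, hβ1, hβ2⟩ := pe_shift hkK (fun j => α i j) (s i) (∑ j ∈ Finset.univ.erase i, s j) h1 (hc i)
    refine ⟨β, ?_, ?_⟩
    · rw [vd_le]
      exact hβ1
    · rw [← hβ2]
      have h2 := hαe i
      rw [ht, ← Finset.add_sum_erase Finset.univ _ (Finset.mem_univ i)] at h2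
      exact h2
  obtain ⟨W1, p1, P, hP1, -, hP2⟩ := sepr (k := K) hr0 hr D F s g hrl (hg.trans hyk) hGG
  -- substitution
  obtain ⟨U, hU⟩ : ∃ U : W1.L, U = p1.map (vd F 1) := ⟨_, rfl⟩
  rw [← hU] at hP1
  obtain ⟨P', hP'⟩ : ∃ P' : MvPolynomial (Fin D) (QS W1), P' =
    MvPolynomial.bind₁ (fun i => ∑ a, MvPolynomial.X a * MvPolynomial.C (p1.qs (X⁻¹ a i))) P := ⟨_, rfl⟩
  have hP'k : P' ∈ PK U := by
    rw [hP']
    apply bind_mem hP1
    intro i
    apply (PK U).sum_mem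
    intro a _
    apply (PK U).mul_mem (X_mem _ a) (C_mem ?_)
    rw [p1.qs_dg, hU]
    exact p1.map_mono (hXi a i)
  have hP'e : p1.qs g - MvPolynomial.eval (fun a => p1.qs (y a)) P' ∈ Id W1 r := by
    rw [hP', eval_bind']
    have h1 : (fun i => MvPolynomial.eval (fun a => p1.qs (y a))
        (∑ a, MvPolynomial.X a * MvPolynomial.C (p1.qs (X⁻¹ a i)))) = fun i => p1.qs (s i) := by
      funext i
      rw [map_sum, hs1, map_sum]
      apply Finset.sum_congr rfl
      intro a _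
      rw [map_mul, map_mul, MvPolynomial.eval_X, MvPolynomial.eval_C]
    rw [h1]
    exact hP2
  -- two copies given the point
  obtain ⟨φ, hφ1, hφ2⟩ : ∃ φ : Fin D ⊕ Unit → QS W1, (∀ a, φ (Sum.inl a) = p1.qs (y a)) ∧
    φ (Sum.inr ()) = p1.qs g := ⟨Sum.elim (fun a => p1.qs (y a)) (fun _ => p1.qs g), fun _ => rfl, rfl⟩
  obtain ⟨C⟩ := exists_CQ φ 1
  have hV : I U (vd φ 1) ⊥ = 0 := by
    have h1 : I (p1.map (vd F 1)) (p1.map (vd y 1)) (p1.map ⊥) = 0 := by
      rw [Pj.I_map]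
      exact hi
    rw [Pj.map_bot, ← hU] at h1
    apply I_zero_mono h1 le_sup_left
    refine le_trans ?_ le_sup_left
    rw [vd_le]
    rintro (a | a)
    · rw [hφ1, p1.qs_dg]
      exact p1.map_mono (dg_le_vd y 1 a)
    · rw [hφ2, p1.qs_dg]
      exact p1.map_mono hg
  have hv : ∀ i, I ((C.p i).map U) C.v ⊥ = 0 := by
    intro i
    rw [← C.p_v i, ← (C.p i).map_bot, Pj.I_map]
    exact hV
  obtain ⟨U1, hU1⟩ : ∃ U1 : C.W.L, U1 = (C.p 0).map U := ⟨_, rfl⟩
  obtain ⟨U2, hU2⟩ : ∃ U2 : C.W.L, U2 = (C.p 1).map U := ⟨_, rfl⟩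
  have hv0 : I U1 C.v ⊥ = 0 := by rw [hU1]; exact hv 0
  have hv1 : I U2 C.v ⊥ = 0 := by rw [hU2]; exact hv 1
  have i12 : I U1 U2 C.v = 0 := by
    rw [hU1, hU2]
    exact C.I_two (by decide) U U
  have j1 : I U1 (C.v ⊔ U2) ⊥ = 0 := I_contract hv0 (by rw [sup_bot_eq]; exact i12)
  have j2 : I U1 U2 ⊥ = 0 ∧ I U1 C.v (U2 ⊔ ⊥) = 0 := I_decomp (by rw [sup_comm] at j1; exact j1)
  have j3 : I C.v (U2 ⊔ U1) ⊥ = 0 := I_contract (by rw [I_comm]; exact hv1) (by rw [I_comm]; exact j2.2)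
  obtain ⟨Y, hY⟩ : ∃ Y : Fin D → QS C.W, Y = fun a => (C.p 0).qs (p1.qs (y a)) := ⟨_, rfl⟩
  have hYv : vd Y 1 ≤ C.v := by
    rw [vd_le, hY]
    intro a
    show dg ((C.p 0).qs (p1.qs (y a))) 1 ≤ _
    rw [(C.p 0).qs_dg]
    refine (C.p 0).map_mono ?_
    have h1 := dg_le_vd φ 1 (Sum.inl a)
    rw [hφ1] at h1
    exact h1
  have hYr0 : Rl Y ⊥ := by
    have h2 := ((hy.pull p1).pull (C.p 0)).anti (bot_le : (⊥ : C.W.L) ≤ _)
    rw [hY]
    exact h2
  have hYr : Rl Y (U2 ⊔ U1) := by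
    have h1 : I (vd Y 1) (U2 ⊔ U1) ⊥ = 0 := I_zero_mono j3 (hYv.trans le_sup_left) le_sup_left
    rw [I_zero_iff_h, sup_bot_eq] at h1
    unfold Rl at hYr0 ⊢
    rw [h1]
    exact hYr0
  have hco : ∀ a, (C.p 1).qs (p1.qs (y a)) = Y a := fun a => by
    have h1 := C.com 1 0 (Sum.inl a)
    rw [hφ1] at h1
    rw [hY]
    exact h1
  have hcg : (C.p 1).qs (p1.qs g) = (C.p 0).qs (p1.qs g) := by
    have h1 := C.com 1 0 (Sum.inr ())
    rw [hφ2] at h1
    exact h1
  have e0 : (C.p 0).qs (p1.qs g) - MvPolynomial.eval Y (MvPolynomial.map (C.p 0).qs P') ∈ Id C.W r := by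
    have h1 := ((C.p 0).qs_mem_Id hr).mpr hP'e
    rw [map_sub, qs_eval] at h1
    rw [hY]
    exact h1
  have e1 : (C.p 0).qs (p1.qs g) - MvPolynomial.eval Y (MvPolynomial.map (C.p 1).qs P') ∈ Id C.W r := by
    have h1 := ((C.p 1).qs_mem_Id hr).mpr hP'e
    rw [map_sub, qs_eval, hcg] at h1
    simp only [hco] at h1
    exact h1
  have e2 : MvPolynomial.eval Y (MvPolynomial.map (C.p 0).qs P') -
      MvPolynomial.eval Y (MvPolynomial.map (C.p 1).qs P') ∈ Id C.W r := by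
    have h1 := (Id C.W r).sub_mem e1 e0
    rwa [sub_sub_sub_cancel_left] at h1
  have k0 : MvPolynomial.map (C.p 0).qs P' ∈ PK U1 := by
    rw [hU1]
    exact map_PK (C.p 0) hP'k
  have k1 : MvPolynomial.map (C.p 1).qs P' ∈ PK U2 := by
    rw [hU2]
    exact map_PK (C.p 1) hP'k
  have e3 : ∀ m, (MvPolynomial.map (C.p 0).qs P').coeff m - (MvPolynomial.map (C.p 1).qs P').coeff m ∈
      Id C.W r := by
    intro m
    exact mv_small_unique one_pos le_rfl (Rl_iff_Rt.mp hYr) hr le_rfl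
      (PKr_of_PK le_rfl (PK_mono le_sup_right k0)) (PKr_of_PK le_rfl (PK_mono le_sup_left k1)) e2 m
  have e4 : ∀ m, dg ((MvPolynomial.map (C.p 0).qs P').coeff m) r ≤ ⊥ := by
    intro m
    apply le_of_markov (A := U1) (B := U2) (C := ⊥) _ _ j2.1
    · exact ((dg_mono _ hr).trans (k0 m)).trans le_sup_left
    · rw [dg_eq_of_sub_mem (e3 m) le_rfl hr]
      exact ((dg_mono _ hr).trans (k1 m)).trans le_sup_left
  obtain ⟨Θ, hΘ⟩ := exists_round_mv (MvPolynomial.map (C.p 0).qs P') hr0 hr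
  refine ⟨C.W, (C.p 0).comp p1, Θ, fun m => (hΘ m).1.trans (e4 m), ?_⟩
  have e5 : MvPolynomial.eval Y (MvPolynomial.map (C.p 0).qs P' - Θ) ∈ Id C.W r := by
    apply eval_mem_ideal
    intro m
    rw [MvPolynomial.coeff_sub]
    exact (hΘ m).2
  rw [map_sub] at e5
  have e6 := (Id C.W r).add_mem e0 e5
  rw [sub_add_sub_cancel] at e6
  simp only [Pj.comp_qs]
  rw [hY] at e6
  exact e6

/-- weak polynomials in extensions -/
theorem wpol_pull {S T : Sp} (p : Pj T S) {b : S.L} {t a : QS S} {r : ℝ} (hr : r ≤ 1) (h : WPol b t a r) :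
    WPol (p.map b) (p.qs t) (p.qs a) r := by
  obtain ⟨k, α, h1, h2⟩ := h
  refine ⟨k, fun j => p.qs (α j), fun j => ?_, ?_⟩
  · rw [p.qs_dg]
    exact p.map_mono (h1 j)
  · have h3 := (p.qs_mem_Id hr).mpr h2
    rw [map_sub, pe_map] at h3
    exact h3

theorem wpol_mono {S : Sp} {b b' : S.L} {t a : QS S} {r : ℝ} (h : WPol b t a r) (hb : b ≤ b') : WPol b' t a r := by
  obtain ⟨k, α, h1, h2⟩ := h
  exact ⟨k, α, fun j => (h1 j).trans hb, h2⟩

/-- (STAR), finitely many functions at once -/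
theorem star_fam {T : Sp} {D : ℕ} (X : Matrix (Fin D) (Fin D) (QS T)) (hu : IsUnit X.det) (y : Fin D → QS T)
    (ta : Fin D) (hXt : ∀ i, X i ta = 1) (hy : Rl y (vd (ent X) 1)) (hi : I (vd (ent X) 1) (vd y 1) ⊥ = 0)
    {γ : Type} [Fintype γ] (g : γ → QS T) (hg : ∀ c, dg (g c) 1 ≤ vd y 1) {r : ℝ} (hr0 : 0 ≤ r) (hr : r ≤ 1)
    (hw : ∀ c i, WPol (vd (X i) 1 ⊔ vd (fun a => y a - y ta * X i a) 1) (y ta) (g c) r) :
    ∃ (W : Sp) (p : Pj W T) (Θ : γ → MvPolynomial (Fin D) (QS W)), (∀ c, Θ c ∈ PK ⊥) ∧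
      ∀ c, p.qs (g c) - MvPolynomial.eval (fun a => p.qs (y a)) (Θ c) ∈ Id W r := by
  classical
  have key : ∀ s : Finset γ, ∃ (W : Sp) (p : Pj W T) (Θ : γ → MvPolynomial (Fin D) (QS W)), ∀ c ∈ s, Θ c ∈ PK ⊥ ∧
      p.qs (g c) - MvPolynomial.eval (fun a => p.qs (y a)) (Θ c) ∈ Id W r := by
    intro s
    induction s using Finset.induction_on with
    | empty => exact ⟨T, Pj.id T, fun _ => 0, fun c hc => absurd hc (Finset.notMem_empty c)⟩
    | insert c s hc ih =>
      obtain ⟨W, p, Θ, h⟩ := ih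
      have e1 : ent (p.qs.mapMatrix X) = fun u => p.qs (ent X u) := rfl
      have e2 : vd (ent (p.qs.mapMatrix X)) 1 = p.map (vd (ent X) 1) := by
        rw [e1, p.qs_vd]
      have e3 : vd (fun a => p.qs (y a)) 1 = p.map (vd y 1) := p.qs_vd y 1
      obtain ⟨W', p', Θ', h1, h2⟩ := star_one (p.qs.mapMatrix X) (by
          rw [← RingHom.map_det]
          exact hu.map _) (fun a => p.qs (y a)) ta (fun i => by
          show p.qs (X i ta) = 1
          rw [hXt, map_one]) (by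
          rw [e2]
          exact hy.pull p) (by
          rw [e2, e3, ← p.map_bot, Pj.I_map]
          exact hi) (p.qs (g c)) (by
          rw [e3, p.qs_dg]
          exact p.map_mono (hg c)) hr0 hr (fun i => by
          have h3 := wpol_pull p hr (hw c i)
          rw [Pj.map_sup, ← p.qs_vd, ← p.qs_vd] at h3
          have e4 : (fun a => p.qs (y a - y ta * X i a)) = fun a => p.qs (y a) - p.qs (y ta) * p.qs (X i a) :=
            funext fun a => by rw [map_sub, map_mul]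
          rw [e4] at h3
          exact h3)
      refine ⟨W', p'.comp p, fun c' => if c' = c then Θ' else MvPolynomial.map p'.qs (Θ c'), fun c' hc' => ?_⟩
      beta_reduce
      by_cases h0 : c' = c
      · subst h0
        rw [if_pos rfl]
        refine ⟨h1, ?_⟩
        simp only [Pj.comp_qs]
        exact h2
      · rw [if_neg h0]
        rcases Finset.mem_insert.mp hc' with h3 | h3
        · exact absurd h3 h0
        obtain ⟨h4, h5⟩ := h c' h3
        constructor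
        · have h6 := map_PK p' h4
          rwa [Pj.map_bot] at h6
        · have h6 := (p'.qs_mem_Id hr).mpr h5
          rw [map_sub, qs_eval] at h6
          simp only [Pj.comp_qs]
          exact h6
  obtain ⟨W, p, Θ, h⟩ := key Finset.univ
  exact ⟨W, p, Θ, fun c => (h c (Finset.mem_univ c)).1, fun c => (h c (Finset.mem_univ c)).2⟩

end

end Pool.Agent.Helper81.TA
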